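import Pool.Agent.H29.SL.Targets2

/-!
# Board so, module W1: the cofactor is not one
-/

set_option autoImplicit false

namespace Pool.Agent.H29.SL

theorem w1_core {p q c a e X Z : ℕ} (hq : q.Prime) (hq5 : 5 ≤ q) (hp7 : 7 ≤ p)
    (hc : 1 ≤ c) (hca : c ≤ a) (hev : Even a) (he5 : e ≤ 5) (hX : p - 1 ≤ X)
    (h : q ^ e * X + 1 = p ^ (a + 1)) (hY : X * Z + 1 = p ^ c) (hZ : Z = X + 1 ∨ X = Z + 1) :
    False := by
  have hX0 : 0 < X := by omega
  have hZ5 : 5 ≤ Z := by omega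
  -- `X` divides `p ^ g - 1`
  have hg1 : X ∣ p ^ c - 1 := ⟨Z, by omega⟩
  have hg2 : X ∣ p ^ (a + 1) - 1 := ⟨q ^ e, by rw [← h, mul_comm X]; omega⟩
  have hg3 : X ∣ p ^ (Nat.gcd c (a + 1)) - 1 := by
    rw [← Nat.pow_sub_one_gcd_pow_sub_one]
    exact Nat.dvd_gcd hg1 hg2
  have hgc : Nat.gcd c (a + 1) ∣ c := Nat.gcd_dvd_left _ _
  have hgp : 0 < Nat.gcd c (a + 1) := Nat.gcd_pos_of_pos_left _ (by omega)
  have hcd : c ∣ a + 1 := by
    by_contra hcon
    have hne : Nat.gcd c (a + 1) ≠ c := fun h1 => hcon (Nat.gcd_eq_left_iff_dvd.1 h1)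
    obtain ⟨k, hk⟩ := hgc
    have hk2 : 2 ≤ k := by
      rcases k with _ | _ | k
      · omega
      · omega
      · omega
    have h2g : 2 * Nat.gcd c (a + 1) ≤ c := by
      calc 2 * Nat.gcd c (a + 1) = Nat.gcd c (a + 1) * 2 := by ring
        _ ≤ Nat.gcd c (a + 1) * k := Nat.mul_le_mul_left _ hk2
        _ = c := hk.symm
    have h1g : 1 < p ^ (Nat.gcd c (a + 1)) := Nat.one_lt_pow hgp.ne' (by omega)
    have hle : X ≤ p ^ (Nat.gcd c (a + 1)) - 1 := Nat.le_of_dvd (by omega) hg3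
    have h2 : p ^ (2 * Nat.gcd c (a + 1)) ≤ p ^ c := Nat.pow_le_pow_right (by omega) h2g
    have h3 : p ^ (2 * Nat.gcd c (a + 1)) = p ^ (Nat.gcd c (a + 1)) * p ^ (Nat.gcd c (a + 1)) := by
      rw [two_mul, pow_add]
    obtain ⟨g, hg⟩ : ∃ g, p ^ (Nat.gcd c (a + 1)) = g + 1 := ⟨_, (Nat.sub_add_cancel h1g.le).symm⟩
    rw [h3, hg] at h2
    rw [hg, Nat.add_sub_cancel] at hle
    have h4 : X * Z ≤ g * (g + 1) := Nat.mul_le_mul hle (by omega)
    nlinarith
  obtain ⟨M, hM⟩ := hcd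
  have hM3 : 3 ≤ M := by
    rcases M with _ | _ | _ | M
    · omega
    · omega
    · exfalso
      obtain ⟨b, hb⟩ := hev
      omega
    · omega
  have hMo : ¬ Even M := by
    rintro ⟨b, hb⟩
    obtain ⟨b', hb'⟩ := hev
    rw [hb] at hM
    have : a + 1 = 2 * (c * b) := by rw [hM]; ring
    omega
  -- the geometric sum
  have hS := geom_sum_mul_add (X * Z) M
  rw [hY, ← pow_mul, ← hM, ← h] at hS
  have hSZ : (∑ i ∈ Finset.range M, (p ^ c) ^ i) * Z = q ^ e := by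
    have h1 : (∑ i ∈ Finset.range M, (p ^ c) ^ i) * (X * Z) = q ^ e * X := Nat.add_right_cancel hS
    have h2 : ((∑ i ∈ Finset.range M, (p ^ c) ^ i) * Z) * X = q ^ e * X := by rw [← h1]; ring
    exact Nat.eq_of_mul_eq_mul_right hX0 h2
  set Y := p ^ c with hYdef
  set S := ∑ i ∈ Finset.range M, Y ^ i with hSdef
  obtain ⟨i, hi, rfl⟩ := (Nat.dvd_prime_pow hq).1 (Dvd.intro_left S hSZ)
  have hi1 : 1 ≤ i := by
    rcases i with _ | i
    · simp at hZ5
    · omega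
  have hSq : S = q ^ (e - i) := by
    have h1 : S * q ^ i = q ^ (e - i) * q ^ i := by rw [hSZ, ← pow_add, Nat.sub_add_cancel hi]
    exact Nat.eq_of_mul_eq_mul_right (by positivity) h1
  have hY1 : q ^ i * q ^ i + 1 ≤ Y + q ^ i := by
    rw [← hY]
    rcases hZ with h1 | h1
    · rw [h1]
      nlinarith
    · rw [h1]
      nlinarith
  have hS3 : Y ^ 2 + Y + 1 ≤ S := by
    have h1 : ∑ i ∈ Finset.range 3, Y ^ i ≤ S :=
      Finset.sum_le_sum_of_subset (Finset.range_subset_range.2 hM3)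
    simp [Finset.sum_range_succ] at h1
    omega
  -- `e ≥ 5 i`
  have h5i : 5 * i ≤ e := by
    have h1 : q ^ (4 * i) < q ^ (e - i + 1) := by
      have hw : q ^ (4 * i) = (q ^ i * q ^ i) * (q ^ i * q ^ i) := by
        rw [← pow_add, ← pow_add]
        congr 1
        ring
      rw [hw, pow_succ, ← hSq]
      have h2 : q ^ i * q ^ i ≤ 2 * Y := by nlinarith
      have h3 : (q ^ i * q ^ i) * (q ^ i * q ^ i) ≤ (2 * Y) * (2 * Y) := Nat.mul_le_mul h2 h2
      have h4 : Y ^ 2 * 5 < S * 5 := by nlinarith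
      have h5 : S * 5 ≤ S * q := Nat.mul_le_mul_left _ hq5
      nlinarith
    have h6 := (Nat.pow_lt_pow_iff_right (by omega : 1 < q)).1 h1
    omega
  have hi' : i = 1 := by omega
  have he' : e = 5 := by omega
  subst hi'
  subst he'
  norm_num at hSq hY1
  have hYq : q + 1 ≤ Y := by nlinarith
  rcases Nat.lt_or_ge M 5 with hM5 | hM5
  · have hM' : M = 3 := by
      have : M ≠ 4 := fun h1 => hMo (by rw [h1]; decide)
      omega
    rw [hM'] at hSdef
    simp [Finset.sum_range_succ] at hSdef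
    have h1 : Y < q ^ 2 := by
      by_contra hcon
      have : (q ^ 2) * (q ^ 2) ≤ Y * Y := Nat.mul_le_mul (by omega) (by omega)
      nlinarith
    have h2 : q ^ 2 < Y + 1 := by
      by_contra hcon
      have : (Y + 1) * (Y + 1) ≤ (q ^ 2) * (q ^ 2) := Nat.mul_le_mul (by omega) (by omega)
      nlinarith
    omega
  · have h1 : ∑ i ∈ Finset.range 5, Y ^ i ≤ S :=
      Finset.sum_le_sum_of_subset (Finset.range_subset_range.2 hM5)
    simp [Finset.sum_range_succ] at h1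
    have h2 : q ^ 4 ≤ Y ^ 4 := Nat.pow_le_pow_left (by omega) 4
    omega

theorem pf_W1 : T_W1 := by
  intro p q c a e X _ hq hq5 hp7 hc hca hev _ he5 hX h
  constructor
  · intro h1
    exact w1_core hq hq5 hp7 hc hca hev he5 hX h (Z := X + 1)
      (by rw [← h1]; ring) (Or.inl rfl)
  · intro h1
    obtain ⟨Z, rfl⟩ : ∃ Z, X = Z + 1 := ⟨X - 1, by omega⟩
    refine w1_core hq hq5 hp7 hc hca hev he5 hX h (Z := Z) ?_ (Or.inr rfl)
    have : (Z + 1) ^ 2 + 1 = ((Z + 1) * Z + 1) + (Z + 1) := by ring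
    omega

end Pool.Agent.H29.SL
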